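import Pool.Agent.H82.FP.Targets

/-!
Row LCT of the board flp_modules: the energy of a plate in a ball of radius `s` is bounded by the
energy in the tube.
-/

set_option autoImplicit false

namespace Pool.Agent.H74.FP.LCT

open MeasureTheory Set Pool.Agent.H83.G Pool.Agent.H82.FP
open scoped ENNReal NNReal RealInnerProductSpace

private theorem fin_gen (V : Type) [NormedAddCommGroup V] [NormedSpace ℝ V]
    [FiniteDimensional ℝ V] [MeasurableSpace V] [BorelSpace V] (μ : Measure V)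
    [μ.IsAddHaarMeasure] (N : ℕ) (hN : Module.finrank ℝ V < N) :
    ∫⁻ z : V, ENNReal.ofReal (((1 + ‖z‖) ^ N)⁻¹) ∂μ < ⊤ := by
  have h1 : Integrable (fun z : V => (1 + ‖z‖) ^ (-(N : ℝ))) μ :=
    integrable_one_add_norm (by exact_mod_cast hN)
  have h2 := h1.lintegral_lt_top
  refine lt_of_eq_of_lt (lintegral_congr fun z => ?_) h2
  rw [Real.rpow_neg (by positivity), Real.rpow_natCast]

private theorem smul_change (V : Type) [NormedAddCommGroup V] [NormedSpace ℝ V]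
    [FiniteDimensional ℝ V] [MeasurableSpace V] [BorelSpace V] (μ : Measure V)
    [μ.IsAddHaarMeasure] (f : V → ℝ≥0∞) (c : ℝ) (hc : 0 < c) :
    ∫⁻ z : V, f (c • z) ∂μ = ENNReal.ofReal ((c⁻¹) ^ Module.finrank ℝ V) * ∫⁻ z, f z ∂μ := by
  have h1 := Measure.map_addHaar_smul μ hc.ne'
  have h2 : ∫⁻ z : V, f (c • z) ∂μ = ∫⁻ z, f z ∂(Measure.map (fun z : V => c • z) μ) :=
    ((Homeomorph.smulOfNeZero c hc.ne' : V ≃ₜ V).measurableEmbedding.lintegral_map f).symm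
  rw [h2]
  change ∫⁻ z, f z ∂(Measure.map (c • ·) μ) = _
  rw [h1, lintegral_smul_measure, abs_of_nonneg (by positivity), smul_eq_mul, inv_pow]

/-- the norm of the components -/
private theorem nrm {m : ℕ} (z : Z m) : |z.1| ≤ ‖z‖ ∧ ‖z.2.1‖ ≤ ‖z‖ ∧ |z.2.2| ≤ ‖z‖ := by
  refine ⟨?_, ?_, ?_⟩
  · rw [← Real.norm_eq_abs]
    exact norm_fst_le z
  · exact (norm_fst_le z.2).trans (norm_snd_le z)
  · rw [← Real.norm_eq_abs]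
    exact (norm_snd_le z.2).trans (norm_snd_le z)

private theorem nrm_le {m : ℕ} (z : Z m) (B : ℝ) (h1 : |z.1| ≤ B) (h2 : ‖z.2.1‖ ≤ B)
    (h3 : |z.2.2| ≤ B) : ‖z‖ ≤ B := by
  rw [Prod.norm_def, Prod.norm_def]
  exact max_le h1 (max_le h2 h3)

private theorem split_prod {m : ℕ} (f : ℝ → ℝ≥0∞) (g : E m → ℝ≥0∞) (h : ℝ → ℝ≥0∞)
    (hf : Measurable f) (hg : Measurable g) (hh : Measurable h) :
    ∫⁻ z : Z m, f z.1 * (g z.2.1 * h z.2.2) = (∫⁻ x, f x) * ((∫⁻ x, g x) * ∫⁻ x, h x) := by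
  have hm : Measurable fun u : E m × ℝ => g u.1 * h u.2 :=
    (hg.comp measurable_fst).mul (hh.comp measurable_snd)
  have h1 : ∫⁻ u : E m × ℝ, g u.1 * h u.2 = (∫⁻ x, g x) * ∫⁻ x, h x := by
    rw [Measure.volume_eq_prod]
    exact lintegral_prod_mul hg.aemeasurable hh.aemeasurable
  rw [← h1, Measure.volume_eq_prod]
  exact lintegral_prod_mul (g := fun u : E m × ℝ => g u.1 * h u.2) hf.aemeasurable
    hm.aemeasurable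

/-- the anisotropic integral -/
private theorem aniso (m : ℕ) : ∃ A : ℝ≥0, ∀ (s w₀ : ℝ), 1 ≤ s →
    ∫⁻ z : Z m, ENNReal.ofReal (((1 + |z.1|) ^ 2)⁻¹ * (((1 + s⁻¹ * ‖z.2.1‖) ^ (m + 1))⁻¹ *
      ((1 + s⁻¹ * |w₀ - z.2.2|) ^ 2)⁻¹)) ≤ A * ENNReal.ofReal (s ^ (m + 1)) := by
  have f1 : ∫⁻ v : ℝ, ENNReal.ofReal (((1 + ‖v‖) ^ 2)⁻¹) < ⊤ :=
    fin_gen ℝ volume 2 (by simp)
  have f2 : ∫⁻ y : E m, ENNReal.ofReal (((1 + ‖y‖) ^ (m + 1))⁻¹) < ⊤ :=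
    fin_gen (E m) volume (m + 1) (by simp [E])
  set A := ∫⁻ v : ℝ, ENNReal.ofReal (((1 + ‖v‖) ^ 2)⁻¹) with hA
  set B := ∫⁻ y : E m, ENNReal.ofReal (((1 + ‖y‖) ^ (m + 1))⁻¹) with hB
  have hAc : (A.toNNReal : ℝ≥0∞) = A := ENNReal.coe_toNNReal f1.ne
  have hBc : (B.toNNReal : ℝ≥0∞) = B := ENNReal.coe_toNNReal f2.ne
  refine ⟨A.toNNReal * B.toNNReal * A.toNNReal, fun s w₀ hs => ?_⟩
  have hs0 : 0 < s := by linarith
  have hsi : 0 < s⁻¹ := by positivity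
  have g1 : ∫⁻ y : E m, ENNReal.ofReal (((1 + s⁻¹ * ‖y‖) ^ (m + 1))⁻¹) =
      ENNReal.ofReal (s ^ m) * B := by
    have h := smul_change (E m) volume
      (fun y => ENNReal.ofReal (((1 + ‖y‖) ^ (m + 1))⁻¹)) s⁻¹ hsi
    simp only [norm_smul, Real.norm_of_nonneg hsi.le, inv_inv] at h
    have hfr : Module.finrank ℝ (E m) = m := by simp [E]
    rw [h, hfr]
  have g2 : ∫⁻ w : ℝ, ENNReal.ofReal (((1 + s⁻¹ * |w₀ - w|) ^ 2)⁻¹) =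
      ENNReal.ofReal s * A := by
    have h := smul_change ℝ volume (fun w => ENNReal.ofReal (((1 + ‖w‖) ^ 2)⁻¹)) s⁻¹ hsi
    simp only [norm_smul, Real.norm_of_nonneg hsi.le, inv_inv] at h
    have h' := lintegral_sub_right_eq_self
      (fun w : ℝ => ENNReal.ofReal (((1 + s⁻¹ * ‖w‖) ^ 2)⁻¹)) w₀ (μ := volume)
    rw [h] at h'
    rw [show ENNReal.ofReal s * A = ENNReal.ofReal (s ^ Module.finrank ℝ ℝ) * A by simp, ← h']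
    refine lintegral_congr fun w => ?_
    rw [Real.norm_eq_abs, abs_sub_comm]
  have hm1 : Measurable fun v : ℝ => ENNReal.ofReal (((1 + |v|) ^ 2)⁻¹) :=
    ENNReal.measurable_ofReal.comp (by fun_prop)
  have hm2 : Measurable fun y : E m => ENNReal.ofReal (((1 + s⁻¹ * ‖y‖) ^ (m + 1))⁻¹) :=
    ENNReal.measurable_ofReal.comp (by fun_prop)
  have hm3 : Measurable fun w : ℝ => ENNReal.ofReal (((1 + s⁻¹ * |w₀ - w|) ^ 2)⁻¹) :=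
    ENNReal.measurable_ofReal.comp (by fun_prop)
  have e1 : ∀ z : Z m, ENNReal.ofReal (((1 + |z.1|) ^ 2)⁻¹ *
      (((1 + s⁻¹ * ‖z.2.1‖) ^ (m + 1))⁻¹ * ((1 + s⁻¹ * |w₀ - z.2.2|) ^ 2)⁻¹)) =
      ENNReal.ofReal (((1 + |z.1|) ^ 2)⁻¹) *
      (ENNReal.ofReal (((1 + s⁻¹ * ‖z.2.1‖) ^ (m + 1))⁻¹) *
        ENNReal.ofReal (((1 + s⁻¹ * |w₀ - z.2.2|) ^ 2)⁻¹)) := by
    intro z
    rw [ENNReal.ofReal_mul (by positivity), ENNReal.ofReal_mul (by positivity)]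
  rw [lintegral_congr e1, split_prod _ _ _ hm1 hm2 hm3, g1, g2]
  have e2 : ∫⁻ v : ℝ, ENNReal.ofReal (((1 + |v|) ^ 2)⁻¹) = A := rfl
  rw [e2]
  push_cast
  rw [hAc, hBc, pow_succ, ENNReal.ofReal_mul (by positivity)]
  exact le_of_eq (by ring)

/-- comparison of the coordinates -/
private theorem Tu_le {m : ℕ} (η : E m) (D s : ℝ) (z : Z m) (hs : 1 ≤ s) (hη : ‖η‖ ≤ D)
    (hD : 1 ≤ D) : ‖Tu η s z‖ ≤ ‖Lo η s⁻¹ z‖ ∧ ‖Tu η s z‖ ≤ (1 + D) ^ 2 * ‖s⁻¹ • z‖ := by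
  have hs0 : 0 < s := by linarith
  have hsi : 0 < s⁻¹ := by positivity
  have hsi1 : s⁻¹ ≤ 1 := inv_le_one_of_one_le₀ hs
  obtain ⟨a1, a2, a3⟩ := nrm z
  constructor
  · obtain ⟨h1, h2, h3⟩ := nrm (Lo η s⁻¹ z)
    refine nrm_le _ _ ?_ h2 h3
    have e1 : |(Tu η s z).1| = s⁻¹ * |(Lo η s⁻¹ z).1| := by
      change |s⁻¹ * (z.1 + ⟪z.2.1, η⟫ + z.2.2 * ‖η‖ ^ 2)| = _
      rw [abs_mul, abs_of_pos hsi]
      rfl
    rw [e1]
    have := abs_nonneg (Lo η s⁻¹ z).1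
    nlinarith
  · have hn : ‖s⁻¹ • z‖ = s⁻¹ * ‖z‖ := by rw [norm_smul, Real.norm_of_nonneg hsi.le]
    rw [hn]
    have hz := norm_nonneg z
    have hη0 := norm_nonneg η
    refine nrm_le _ _ ?_ ?_ ?_
    · change |s⁻¹ * (z.1 + ⟪z.2.1, η⟫ + z.2.2 * ‖η‖ ^ 2)| ≤ _
      rw [abs_mul, abs_of_pos hsi]
      have h1 : |⟪z.2.1, η⟫| ≤ ‖z‖ * D :=
        (abs_real_inner_le_norm _ _).trans (mul_le_mul a2 hη hη0 hz)
      have h2 : |z.2.2 * ‖η‖ ^ 2| ≤ ‖z‖ * D ^ 2 := by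
        rw [abs_mul, abs_of_nonneg (by positivity : (0 : ℝ) ≤ ‖η‖ ^ 2)]
        exact mul_le_mul a3 (pow_le_pow_left₀ hη0 hη 2) (by positivity) hz
      have h3 : |z.1 + ⟪z.2.1, η⟫ + z.2.2 * ‖η‖ ^ 2| ≤ ‖z‖ + ‖z‖ * D + ‖z‖ * D ^ 2 :=
        (abs_add_three _ _ _).trans (add_le_add (add_le_add a1 h1) h2)
      have h4 : ‖z‖ + ‖z‖ * D + ‖z‖ * D ^ 2 ≤ (1 + D) ^ 2 * ‖z‖ := by nlinarith
      calc s⁻¹ * |z.1 + ⟪z.2.1, η⟫ + z.2.2 * ‖η‖ ^ 2| ≤ s⁻¹ * ((1 + D) ^ 2 * ‖z‖) :=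
            mul_le_mul_of_nonneg_left (h3.trans h4) hsi.le
        _ = _ := by ring
    · change ‖s⁻¹ • (z.2.1 + (2 * z.2.2) • η)‖ ≤ _
      rw [norm_smul, Real.norm_of_nonneg hsi.le]
      have h1 : ‖(2 * z.2.2) • η‖ ≤ 2 * ‖z‖ * D := by
        rw [norm_smul, Real.norm_eq_abs, abs_mul, abs_of_pos (by norm_num : (0 : ℝ) < 2)]
        exact mul_le_mul (by linarith) hη hη0 (by positivity)
      have h2 : ‖z.2.1 + (2 * z.2.2) • η‖ ≤ ‖z‖ + 2 * ‖z‖ * D :=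
        (norm_add_le _ _).trans (add_le_add a2 h1)
      have h4 : ‖z‖ + 2 * ‖z‖ * D ≤ (1 + D) ^ 2 * ‖z‖ := by nlinarith [sq_nonneg D]
      calc s⁻¹ * ‖z.2.1 + (2 * z.2.2) • η‖ ≤ s⁻¹ * ((1 + D) ^ 2 * ‖z‖) :=
            mul_le_mul_of_nonneg_left (h2.trans h4) hsi.le
        _ = _ := by ring
    · change |(s⁻¹) ^ 2 * z.2.2| ≤ _
      rw [abs_mul, abs_of_pos (by positivity)]
      have h1 : (s⁻¹) ^ 2 ≤ s⁻¹ := by nlinarith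
      have h2 : (1 : ℝ) ≤ (1 + D) ^ 2 := by nlinarith
      calc (s⁻¹) ^ 2 * |z.2.2| ≤ s⁻¹ * ‖z‖ := mul_le_mul h1 a3 (abs_nonneg _) hsi.le
        _ = 1 * (s⁻¹ * ‖z‖) := (one_mul _).symm
        _ ≤ (1 + D) ^ 2 * (s⁻¹ * ‖z‖) := mul_le_mul_of_nonneg_right h2 (by positivity)

private theorem Tu_add {m : ℕ} (η : E m) (s : ℝ) (x y : Z m) :
    Tu η s (x + y) = Tu η s x + Tu η s y := by
  unfold Tu
  refine Prod.ext ?_ (Prod.ext ?_ ?_)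
  · simp only [Prod.fst_add, Prod.snd_add, inner_add_left]
    ring
  · simp only [Prod.fst_add, Prod.snd_add]
    rw [← smul_add]
    congr 1
    rw [mul_add, add_smul]
    abel
  · simp only [Prod.snd_add]
    ring

private theorem haar2 (m : ℕ) : (volume : Measure (Z m)).IsAddHaarMeasure := by
  have h1 : (volume : Measure (E m × ℝ)).IsAddHaarMeasure := by
    rw [Measure.volume_eq_prod]
    infer_instance
  rw [Measure.volume_eq_prod]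
  infer_instance

/-- the inner integral -/
private theorem inner_int (hLOI : T_LOI) (m : ℕ) : ∃ A : ℝ≥0, ∀ (η : E m) (s : ℝ) (z z₂ : Z m),
    1 ≤ s → ∫⁻ z' : Z m, ENNReal.ofReal (wt (m + 3) (Lo η s⁻¹ (z' - z₂)) *
      wt (m + 3) (s⁻¹ • (z - z'))) ≤ A * ENNReal.ofReal (s ^ (m + 1)) := by
  obtain ⟨A, hA⟩ := aniso m
  refine ⟨A, fun η s z z₂ hs => ?_⟩
  have hs0 : 0 < s := by linarith
  have hsi : 0 < s⁻¹ := by positivity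
  set w₀ := (z - z₂).2.2 with hw₀
  set f : Z m → ℝ≥0∞ := fun x => ENNReal.ofReal (((1 + |x.1|) ^ 2)⁻¹ *
    (((1 + s⁻¹ * ‖x.2.1‖) ^ (m + 1))⁻¹ * ((1 + s⁻¹ * |w₀ - x.2.2|) ^ 2)⁻¹)) with hf
  have h1 : ∀ z' : Z m, ENNReal.ofReal (wt (m + 3) (Lo η s⁻¹ (z' - z₂)) *
      wt (m + 3) (s⁻¹ • (z - z'))) ≤ f (Lo η 1 (z' - z₂)) := by
    intro z'
    set u := z' - z₂ with hu
    obtain ⟨a1, a2, -⟩ := nrm (Lo η s⁻¹ u)
    have a3 := (nrm (s⁻¹ • (z - z'))).2.2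
    set X := ‖Lo η s⁻¹ u‖ with hX
    set Y := ‖s⁻¹ • (z - z')‖ with hY
    have hX0 : 0 ≤ X := norm_nonneg _
    have hY0 : 0 ≤ Y := norm_nonneg _
    have b1 : |(Lo η 1 u).1| ≤ X := a1
    have b2 : s⁻¹ * ‖(Lo η 1 u).2.1‖ ≤ X := by
      refine le_trans (le_of_eq ?_) a2
      change s⁻¹ * ‖(1 : ℝ) • (u.2.1 + (2 * u.2.2) • η)‖ =
        ‖s⁻¹ • (u.2.1 + (2 * u.2.2) • η)‖
      rw [one_smul, norm_smul, Real.norm_of_nonneg hsi.le]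
    have b3 : s⁻¹ * |w₀ - (Lo η 1 u).2.2| ≤ Y := by
      refine le_trans (le_of_eq ?_) a3
      have e1 : w₀ - (Lo η 1 u).2.2 = (z - z').2.2 := by
        change (z - z₂).2.2 - 1 ^ 2 * (z' - z₂).2.2 = (z - z').2.2
        simp only [Prod.snd_sub]
        ring
      rw [e1]
      change s⁻¹ * |(z - z').2.2| = |s⁻¹ * (z - z').2.2|
      rw [abs_mul, abs_of_pos hsi]
    refine ENNReal.ofReal_le_ofReal ?_
    change ((1 + X) ^ (m + 3))⁻¹ * ((1 + Y) ^ (m + 3))⁻¹ ≤ _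
    have c1 : ((1 + X) ^ (m + 3))⁻¹ ≤ ((1 + |(Lo η 1 u).1|) ^ 2)⁻¹ *
        ((1 + s⁻¹ * ‖(Lo η 1 u).2.1‖) ^ (m + 1))⁻¹ := by
      rw [← mul_inv]
      refine inv_anti₀ (by positivity) ?_
      have : (1 + X) ^ (m + 3) = (1 + X) ^ 2 * (1 + X) ^ (m + 1) := by
        rw [← pow_add]
        congr 1
        ring
      rw [this]
      exact mul_le_mul (pow_le_pow_left₀ (by positivity) (by linarith) 2)
        (pow_le_pow_left₀ (by positivity) (by linarith) _) (by positivity) (by positivity)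
    have c2 : ((1 + Y) ^ (m + 3))⁻¹ ≤ ((1 + s⁻¹ * |w₀ - (Lo η 1 u).2.2|) ^ 2)⁻¹ := by
      refine inv_anti₀ (by positivity) ?_
      have h : (1 + s⁻¹ * |w₀ - (Lo η 1 u).2.2|) ^ 2 ≤ (1 + Y) ^ 2 :=
        pow_le_pow_left₀ (by positivity) (by linarith) 2
      exact h.trans (pow_le_pow_right₀ (by linarith) (by omega))
    calc ((1 + X) ^ (m + 3))⁻¹ * ((1 + Y) ^ (m + 3))⁻¹
        ≤ (((1 + |(Lo η 1 u).1|) ^ 2)⁻¹ * ((1 + s⁻¹ * ‖(Lo η 1 u).2.1‖) ^ (m + 1))⁻¹) *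
          ((1 + s⁻¹ * |w₀ - (Lo η 1 u).2.2|) ^ 2)⁻¹ :=
          mul_le_mul c1 c2 (by positivity) (by positivity)
      _ = _ := by rw [mul_assoc]
  refine (lintegral_mono h1).trans ?_
  have := haar2 m
  rw [lintegral_sub_right_eq_self (fun x => f (Lo η 1 x)) z₂]
  have h2 := (hLOI m η 1 one_pos).1 f
  rw [h2, inv_one, one_pow, ENNReal.ofReal_one, one_mul]
  exact hA s w₀ hs

/-- local constancy in rescaled coordinates -/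
private theorem loc_con (hLOA : T_LOA) (hLOI : T_LOI) (hSCL : T_SCL) (hLCN : T_LCN) (m M : ℕ)
    (D : ℝ) (hD : 1 ≤ D) : ∃ C₁ : ℝ≥0, ∀ (η : E m) (s : ℝ) (G : Z m → ℂ), 1 ≤ s → TC G →
    (∀ ζ, G ζ ≠ 0 → 1 / 4 ≤ ζ.1 ∧ ζ.1 ≤ 8 ∧ ‖ζ.1⁻¹ • ζ.2.1 - η‖ ≤ D / s ∧
      |ζ.2.2 - ‖ζ.2.1‖ ^ 2 / ζ.1| ≤ D / s ^ 2) → ∀ z' : Z m,
    ‖TF G z'‖ₑ ^ 2 ≤ C₁ * ENNReal.ofReal ((s⁻¹) ^ (m + 2)) *
      ∫⁻ z₂, ‖TF G z₂‖ₑ ^ 2 * ENNReal.ofReal (wt M (Lo η s⁻¹ (z' - z₂))) := by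
  obtain ⟨C₁, hC₁⟩ := hLCN m M (17 * D ^ 2) 2 (by norm_num)
  refine ⟨C₁, fun η s G hs hG hsup z' => ?_⟩
  have hs0 : 0 < s := by linarith
  have hsi : 0 < s⁻¹ := by positivity
  obtain ⟨hTC, hTF⟩ := hSCL m η s⁻¹ G hsi hG
  obtain ⟨hadd, -, -, -, -, hLd⟩ := hLOA m
  set G' : Z m → ℂ := fun ζ => G (Ld η s⁻¹ ζ) with hG'
  have hsup' : ∀ ζ, G' ζ ≠ 0 → ‖ζ‖ ≤ 17 * D ^ 2 := by
    intro ζ hζ
    obtain ⟨h1, h2, h3, h4⟩ := hsup _ hζ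
    have hζ1 : (Ld η s⁻¹ ζ).1 = ζ.1 := rfl
    rw [hζ1] at h1 h2
    have hpos : 0 < ζ.1 := by linarith
    obtain ⟨-, h5, h6⟩ := hLd η s⁻¹ ζ hpos.ne'
    rw [h5, norm_smul, Real.norm_of_nonneg hsi.le] at h3
    rw [h6, abs_mul, abs_of_pos (by positivity)] at h4
    have h7 : ‖ζ.1⁻¹ • ζ.2.1‖ ≤ D := by
      have : s⁻¹ * ‖ζ.1⁻¹ • ζ.2.1‖ ≤ s⁻¹ * D := by
        rw [mul_comm s⁻¹ D, ← div_eq_mul_inv]
        exact h3
      exact le_of_mul_le_mul_left this hsi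
    have h8 : |ζ.2.2 - ‖ζ.2.1‖ ^ 2 / ζ.1| ≤ D := by
      have : (s⁻¹) ^ 2 * |ζ.2.2 - ‖ζ.2.1‖ ^ 2 / ζ.1| ≤ (s⁻¹) ^ 2 * D := by
        rw [mul_comm ((s⁻¹) ^ 2) D, inv_pow, ← div_eq_mul_inv]
        rw [inv_pow] at h4
        exact h4
      exact le_of_mul_le_mul_left this (by positivity)
    have h9 : ‖ζ.2.1‖ ≤ 8 * D := by
      rw [norm_smul, norm_inv, Real.norm_of_nonneg hpos.le, inv_mul_le_iff₀ hpos] at h7
      nlinarith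
    have h10 : ‖ζ.2.1‖ ^ 2 / ζ.1 ≤ 8 * D ^ 2 := by
      rw [norm_smul, norm_inv, Real.norm_of_nonneg hpos.le, inv_mul_le_iff₀ hpos] at h7
      rw [div_le_iff₀ hpos]
      have h11 := norm_nonneg ζ.2.1
      have h12 : ‖ζ.2.1‖ ^ 2 ≤ (ζ.1 * D) ^ 2 := pow_le_pow_left₀ h11 h7 2
      have h13 : 0 ≤ ζ.1 * D ^ 2 := by positivity
      nlinarith
    have hDD : D ≤ D ^ 2 := by nlinarith
    have h14 : 0 ≤ ‖ζ.2.1‖ ^ 2 / ζ.1 := by positivity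
    refine nrm_le _ _ ?_ ?_ ?_
    · rw [abs_of_pos hpos]
      nlinarith
    · nlinarith
    · obtain ⟨h15, h16⟩ := abs_le.1 h8
      rw [abs_le]
      constructor <;> nlinarith
  have hLC := hC₁ G' hTC hsup' (Lo η s⁻¹ z')
  simp only [ENNReal.rpow_two] at hLC
  have hc : ∀ x : Z m, ‖TF G x‖ₑ ^ 2 = ENNReal.ofReal ((s⁻¹) ^ (m + 2)) ^ 2 *
      ‖TF G' (Lo η s⁻¹ x)‖ₑ ^ 2 := by
    intro x
    rw [hTF x, enorm_mul, mul_pow]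
    congr 2
    rw [← ofReal_norm, Complex.norm_real, Real.norm_of_nonneg (by positivity)]
  have hch := (hLOI m η s⁻¹ hsi).1
    (fun y => ‖TF G' y‖ₑ ^ 2 * ENNReal.ofReal (wt M (Lo η s⁻¹ z' - y)))
  have hone : ENNReal.ofReal ((s⁻¹) ^ (m + 2)) * ENNReal.ofReal (((s⁻¹)⁻¹) ^ (m + 2)) = 1 := by
    rw [← ENNReal.ofReal_mul (by positivity), ← mul_pow, mul_inv_cancel₀ hsi.ne', one_pow,
      ENNReal.ofReal_one]
  have hI : ∫⁻ y, ‖TF G' y‖ₑ ^ 2 * ENNReal.ofReal (wt M (Lo η s⁻¹ z' - y)) =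
      ENNReal.ofReal ((s⁻¹) ^ (m + 2)) * ∫⁻ z₂, ‖TF G' (Lo η s⁻¹ z₂)‖ₑ ^ 2 *
        ENNReal.ofReal (wt M (Lo η s⁻¹ (z' - z₂))) := by
    have e1 : ∀ z₂, Lo η s⁻¹ z' - Lo η s⁻¹ z₂ = Lo η s⁻¹ (z' - z₂) := fun z₂ =>
      ((hadd η s⁻¹ z' z₂).2.1).symm
    simp only [e1] at hch
    rw [hch, ← mul_assoc, hone, one_mul]
  have hJ : ∫⁻ z₂, ‖TF G z₂‖ₑ ^ 2 * ENNReal.ofReal (wt M (Lo η s⁻¹ (z' - z₂))) =
      ENNReal.ofReal ((s⁻¹) ^ (m + 2)) ^ 2 * ∫⁻ z₂, ‖TF G' (Lo η s⁻¹ z₂)‖ₑ ^ 2 *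
        ENNReal.ofReal (wt M (Lo η s⁻¹ (z' - z₂))) := by
    rw [← lintegral_const_mul' _ _ (ENNReal.pow_ne_top ENNReal.ofReal_ne_top)]
    refine lintegral_congr fun z₂ => ?_
    rw [hc z₂, mul_assoc]
  rw [hc z', hJ]
  rw [hI] at hLC
  calc ENNReal.ofReal ((s⁻¹) ^ (m + 2)) ^ 2 * ‖TF G' (Lo η s⁻¹ z')‖ₑ ^ 2
      ≤ ENNReal.ofReal ((s⁻¹) ^ (m + 2)) ^ 2 * (C₁ * (ENNReal.ofReal ((s⁻¹) ^ (m + 2)) *
          ∫⁻ z₂, ‖TF G' (Lo η s⁻¹ z₂)‖ₑ ^ 2 *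
            ENNReal.ofReal (wt M (Lo η s⁻¹ (z' - z₂))))) := by
        gcongr
    _ = _ := by ring

/-- the weights -/
private theorem wts (hWT1 : T_WT1) (m N : ℕ) (D : ℝ) (hD : 1 ≤ D) (η : E m) (s : ℝ)
    (z z' z₂ : Z m) (hs : 1 ≤ s) (hη : ‖η‖ ≤ D) :
    wt (N + (m + 3)) (Lo η s⁻¹ (z' - z₂)) * wt (N + (m + 3)) (s⁻¹ • (z - z')) ≤
      ((1 + D) ^ 2) ^ N * wt N (Tu η s (z - z₂)) *
        (wt (m + 3) (Lo η s⁻¹ (z' - z₂)) * wt (m + 3) (s⁻¹ • (z - z'))) := by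
  obtain ⟨h01, -, hadd, hmono, -, hsplit, -⟩ := hWT1 m N
  rw [hsplit, hsplit]
  obtain ⟨h1, -⟩ := Tu_le η D s (z' - z₂) hs hη hD
  obtain ⟨-, h2⟩ := Tu_le η D s (z - z') hs hη hD
  have g1 : wt N (Lo η s⁻¹ (z' - z₂)) ≤ wt N (Tu η s (z' - z₂)) := hmono _ _ h1
  have hC : (1 : ℝ) ≤ (1 + D) ^ 2 := by nlinarith
  have g2 : wt N (s⁻¹ • (z - z')) ≤ ((1 + D) ^ 2) ^ N * wt N (Tu η s (z - z')) := by
    unfold wt
    have hX0 := norm_nonneg (Tu η s (z - z'))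
    have hY0 := norm_nonneg (s⁻¹ • (z - z'))
    rw [inv_le_iff_one_le_mul₀ (by positivity), mul_comm (((1 + D) ^ 2) ^ N), mul_assoc,
      ← mul_pow, inv_mul_eq_div, le_div_iff₀ (by positivity), one_mul]
    refine pow_le_pow_left₀ (by positivity) ?_ N
    nlinarith
  have g3 : wt N (Tu η s (z - z')) * wt N (Tu η s (z' - z₂)) ≤ wt N (Tu η s (z - z₂)) := by
    have h := hadd (Tu η s (z - z')) (Tu η s (z' - z₂))
    rw [← Tu_add, sub_add_sub_cancel] at h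
    exact h
  have p1 := (h01 (Lo η s⁻¹ (z' - z₂))).1
  have p2 := (h01 (s⁻¹ • (z - z'))).1
  have p3 := (h01 (Tu η s (z - z'))).1
  have p4 := (h01 (Tu η s (z' - z₂))).1
  have q1 := ((hWT1 m (m + 3)).1 (Lo η s⁻¹ (z' - z₂))).1
  have q2 := ((hWT1 m (m + 3)).1 (s⁻¹ • (z - z'))).1
  calc wt N (Lo η s⁻¹ (z' - z₂)) * wt (m + 3) (Lo η s⁻¹ (z' - z₂)) *
        (wt N (s⁻¹ • (z - z')) * wt (m + 3) (s⁻¹ • (z - z')))
      = (wt N (Lo η s⁻¹ (z' - z₂)) * wt N (s⁻¹ • (z - z'))) *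
        (wt (m + 3) (Lo η s⁻¹ (z' - z₂)) * wt (m + 3) (s⁻¹ • (z - z'))) := by ring
    _ ≤ (wt N (Tu η s (z' - z₂)) * (((1 + D) ^ 2) ^ N * wt N (Tu η s (z - z')))) *
        (wt (m + 3) (Lo η s⁻¹ (z' - z₂)) * wt (m + 3) (s⁻¹ • (z - z'))) := by
        refine mul_le_mul_of_nonneg_right ?_ (by positivity)
        exact mul_le_mul g1 g2 p2.le p4.le
    _ = ((1 + D) ^ 2) ^ N * (wt N (Tu η s (z - z')) * wt N (Tu η s (z' - z₂))) *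
        (wt (m + 3) (Lo η s⁻¹ (z' - z₂)) * wt (m + 3) (s⁻¹ • (z - z'))) := by ring
    _ ≤ _ := by
        refine mul_le_mul_of_nonneg_right ?_ (by positivity)
        exact mul_le_mul_of_nonneg_left g3 (by positivity)

theorem pf_LCT (hLOA : T_LOA) (hLOI : T_LOI) (hSCL : T_SCL) (hWT1 : T_WT1) (hSCH : T_SCH)
    (hLCN : T_LCN) : T_LCT := by
  intro m N D hD
  obtain ⟨C₁, hC₁⟩ := loc_con hLOA hLOI hSCL hLCN m (N + (m + 3)) D hD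
  obtain ⟨A, hA⟩ := inner_int hLOI m
  refine ⟨N + (m + 3), C₁ * A * ((1 + D) ^ 2) ^ N + 1, by omega, by positivity, ?_⟩
  intro η s G z hs hη hG hsup
  have hs0 : 0 < s := by linarith
  have hsi : 0 < s⁻¹ := by positivity
  have hcF : Continuous (TF G) := (hSCH m G hG).1
  have hcW : Continuous (wt (N + (m + 3)) : Z m → ℝ) := (hWT1 m _).2.1
  have hcL : Continuous (Lo η s⁻¹) := (hLOI m η s⁻¹ hsi).2.2.2.2.1.continuous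
  have := haar2 m
  have hsf : SFinite (volume : Measure (Z m)) := inferInstance
  set K : Z m → Z m → ℝ≥0∞ := fun z' z₂ => ENNReal.ofReal
    (wt (N + (m + 3)) (Lo η s⁻¹ (z' - z₂)) * wt (N + (m + 3)) (s⁻¹ • (z - z'))) with hK
  -- the pointwise bound
  have h1 : ∀ z' : Z m, ‖TF G z'‖ₑ ^ 2 * ENNReal.ofReal (wt (N + (m + 3)) (s⁻¹ • (z - z'))) ≤
      C₁ * ENNReal.ofReal ((s⁻¹) ^ (m + 2)) * ∫⁻ z₂, ‖TF G z₂‖ₑ ^ 2 * K z' z₂ := by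
    intro z'
    have h2 := hC₁ η s G hs hG hsup z'
    have h3 : ∫⁻ z₂, ‖TF G z₂‖ₑ ^ 2 * K z' z₂ =
        (∫⁻ z₂, ‖TF G z₂‖ₑ ^ 2 * ENNReal.ofReal (wt (N + (m + 3)) (Lo η s⁻¹ (z' - z₂)))) *
          ENNReal.ofReal (wt (N + (m + 3)) (s⁻¹ • (z - z'))) := by
      rw [← lintegral_mul_const' _ _ ENNReal.ofReal_ne_top]
      refine lintegral_congr fun z₂ => ?_
      rw [hK]
      simp only
      rw [ENNReal.ofReal_mul ((hWT1 m _).1 _).1.le, mul_assoc]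
    rw [h3, ← mul_assoc]
    gcongr
  have hmeas : Measurable (Function.uncurry fun z' z₂ : Z m => ‖TF G z₂‖ₑ ^ 2 * K z' z₂) := by
    have c1 : Continuous fun p : Z m × Z m => TF G p.2 := hcF.comp continuous_snd
    have c3 : Continuous fun p : Z m × Z m => s⁻¹ • (z - p.1) := by fun_prop
    have c2 : Continuous fun p : Z m × Z m => wt (N + (m + 3)) (Lo η s⁻¹ (p.1 - p.2)) *
        wt (N + (m + 3)) (s⁻¹ • (z - p.1)) :=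
      (hcW.comp (hcL.comp (continuous_fst.sub continuous_snd))).mul (hcW.comp c3)
    exact ((c1.enorm.measurable).pow_const 2).mul (ENNReal.measurable_ofReal.comp c2.measurable)
  have h4 : ∀ z₂ : Z m, ∫⁻ z', ‖TF G z₂‖ₑ ^ 2 * K z' z₂ ≤
      (ENNReal.ofReal (((1 + D) ^ 2) ^ N) * (A * ENNReal.ofReal (s ^ (m + 1)))) *
        (‖TF G z₂‖ₑ ^ 2 * ENNReal.ofReal (wt N (Tu η s (z - z₂)))) := by
    intro z₂
    have hpos := ((hWT1 m N).1 (Tu η s (z - z₂))).1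
    rw [lintegral_const_mul' _ _ (ENNReal.pow_ne_top enorm_ne_top)]
    have h5 : ∫⁻ z', K z' z₂ ≤ ENNReal.ofReal (((1 + D) ^ 2) ^ N * wt N (Tu η s (z - z₂))) *
        (A * ENNReal.ofReal (s ^ (m + 1))) := by
      calc ∫⁻ z', K z' z₂ ≤ ∫⁻ z', ENNReal.ofReal (((1 + D) ^ 2) ^ N * wt N (Tu η s (z - z₂))) *
            ENNReal.ofReal (wt (m + 3) (Lo η s⁻¹ (z' - z₂)) * wt (m + 3) (s⁻¹ • (z - z'))) := by
            refine lintegral_mono fun z' => ?_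
            rw [← ENNReal.ofReal_mul (by positivity)]
            exact ENNReal.ofReal_le_ofReal (wts hWT1 m N D hD η s z z' z₂ hs hη)
        _ = ENNReal.ofReal (((1 + D) ^ 2) ^ N * wt N (Tu η s (z - z₂))) *
            ∫⁻ z', ENNReal.ofReal (wt (m + 3) (Lo η s⁻¹ (z' - z₂)) *
              wt (m + 3) (s⁻¹ • (z - z'))) := by
            rw [lintegral_const_mul' _ _ ENNReal.ofReal_ne_top]
        _ ≤ _ := by
            gcongr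
            exact hA η s z z₂ hs
    calc ‖TF G z₂‖ₑ ^ 2 * ∫⁻ z', K z' z₂
        ≤ ‖TF G z₂‖ₑ ^ 2 * (ENNReal.ofReal (((1 + D) ^ 2) ^ N * wt N (Tu η s (z - z₂))) *
          (A * ENNReal.ofReal (s ^ (m + 1)))) := by gcongr
      _ = _ := by
          rw [ENNReal.ofReal_mul (by positivity)]
          ring
  have hfin : (C₁ : ℝ≥0∞) * ENNReal.ofReal ((s⁻¹) ^ (m + 2)) ≠ ⊤ :=
    ENNReal.mul_ne_top ENNReal.coe_ne_top ENNReal.ofReal_ne_top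
  have hfin2 : ENNReal.ofReal (((1 + D) ^ 2) ^ N) * (A * ENNReal.ofReal (s ^ (m + 1))) ≠ ⊤ :=
    ENNReal.mul_ne_top ENNReal.ofReal_ne_top
      (ENNReal.mul_ne_top ENNReal.coe_ne_top ENNReal.ofReal_ne_top)
  calc ∫⁻ z', ‖TF G z'‖ₑ ^ 2 * ENNReal.ofReal (wt (N + (m + 3)) (s⁻¹ • (z - z')))
      ≤ ∫⁻ z', C₁ * ENNReal.ofReal ((s⁻¹) ^ (m + 2)) * ∫⁻ z₂, ‖TF G z₂‖ₑ ^ 2 * K z' z₂ :=
        lintegral_mono h1
    _ = C₁ * ENNReal.ofReal ((s⁻¹) ^ (m + 2)) * ∫⁻ z', ∫⁻ z₂, ‖TF G z₂‖ₑ ^ 2 * K z' z₂ := by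
        rw [lintegral_const_mul' _ _ hfin]
    _ = C₁ * ENNReal.ofReal ((s⁻¹) ^ (m + 2)) * ∫⁻ z₂, ∫⁻ z', ‖TF G z₂‖ₑ ^ 2 * K z' z₂ := by
        rw [lintegral_lintegral_swap hmeas.aemeasurable]
    _ ≤ C₁ * ENNReal.ofReal ((s⁻¹) ^ (m + 2)) * ∫⁻ z₂,
        (ENNReal.ofReal (((1 + D) ^ 2) ^ N) * (A * ENNReal.ofReal (s ^ (m + 1)))) *
          (‖TF G z₂‖ₑ ^ 2 * ENNReal.ofReal (wt N (Tu η s (z - z₂)))) := by
        gcongr with z₂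
        exact h4 z₂
    _ = (C₁ * A * ENNReal.ofReal (((1 + D) ^ 2) ^ N) *
        (ENNReal.ofReal ((s⁻¹) ^ (m + 2)) * ENNReal.ofReal (s ^ (m + 1)))) *
        ∫⁻ z₂, ‖TF G z₂‖ₑ ^ 2 * ENNReal.ofReal (wt N (Tu η s (z - z₂))) := by
        rw [lintegral_const_mul' _ _ hfin2]
        ring
    _ ≤ _ := by
        gcongr
        have e1 : ENNReal.ofReal ((s⁻¹) ^ (m + 2)) * ENNReal.ofReal (s ^ (m + 1)) =
            ENNReal.ofReal s⁻¹ := by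
          rw [← ENNReal.ofReal_mul (by positivity)]
          congr 1
          rw [show m + 2 = (m + 1) + 1 by rfl, pow_succ (s⁻¹), mul_assoc, mul_comm s⁻¹, ← mul_assoc,
            ← mul_pow, inv_mul_cancel₀ hs0.ne', one_pow, one_mul]
        rw [e1, ← ENNReal.ofReal_coe_nnreal, ← ENNReal.ofReal_coe_nnreal,
          ← ENNReal.ofReal_mul (by positivity), ← ENNReal.ofReal_mul (by positivity),
          ← ENNReal.ofReal_mul (by positivity)]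
        refine ENNReal.ofReal_le_ofReal ?_
        rw [div_eq_mul_inv]
        refine mul_le_mul_of_nonneg_right ?_ hsi.le
        linarith

end Pool.Agent.H74.FP.LCT
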